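import Pool.Agent.Q123.ML.Mat
import Pool.Agent.Q123.KB.Fin

set_option autoImplicit false

/-!
Upper Koszul complexes of the second symbolic power of the Stanley-Reisner ideal of a matroid.
-/

namespace Pool.Agent.Q123.ML

open Finset Pool.Agent.H677R3.EdgeReg Pool.Agent.Q123.KB

variable {n : ℕ}

/-- `M` is the set of faces of a matroid on `{0, …, n - 1}`. -/
def IsMatroid (M : Finset (Finset (Fin n))) : Prop :=
  ∅ ∈ M ∧ (∀ F ∈ M, ∀ G, G ⊆ F → G ∈ M) ∧
    ∀ F ∈ M, ∀ G ∈ M, F.card < G.card → ∃ v ∈ G, v ∉ F ∧ insert v F ∈ M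

/-- `C` is a circuit, that is, a minimal non-face. -/
def IsCircuit (M : Finset (Finset (Fin n))) (C : Finset (Fin n)) : Prop :=
  C ∉ M ∧ ∀ G, G ⊂ C → G ∈ M

/-- the number of elements of the largest faces -/
def rank (M : Finset (Finset (Fin n))) : ℕ := M.sup Finset.card

/-- a face with the largest number of elements -/
def Bas (M : Finset (Finset (Fin n))) (F : Finset (Fin n)) : Prop := F ∈ M ∧ F.card = rank M

theorem IsMatroid.mf {M : Finset (Finset (Fin n))} (hM : IsMatroid M) : MF univ (· ∈ M) :=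
  ⟨hM.1, fun _ _ => Finset.subset_univ _, fun A B hA h => hM.2.1 A hA B h,
    fun A B hA hB h => hM.2.2 A hA B hB h⟩

theorem card_le_rank {M : Finset (Finset (Fin n))} {A : Finset (Fin n)} (hA : A ∈ M) :
    A.card ≤ rank M := Finset.le_sup (f := Finset.card) hA

theorem exists_bas {M : Finset (Finset (Fin n))} (hM : IsMatroid M) : ∃ F, Bas M F := by
  obtain ⟨F, hF, h⟩ := Finset.exists_mem_eq_sup M ⟨∅, hM.1⟩ Finset.card
  exact ⟨F, hF, h.symm⟩

theorem extend_bas {M : Finset (Finset (Fin n))} (hM : IsMatroid M) {A B : Finset (Fin n)}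
    (hA : A ∈ M) (hB : Bas M B) : ∃ F, Bas M F ∧ A ⊆ F ∧ F ⊆ A ∪ B := by
  obtain ⟨C, h1, h2, h3, h4⟩ := hM.mf.extend hA hB.1
  exact ⟨C, ⟨h2, le_antisymm (card_le_rank h2) (hB.2 ▸ h3)⟩, h1, h4⟩

/-- the dual description of the upper Koszul complex -/
def UU (M : Finset (Finset (Fin n))) (W S A : Finset (Fin n)) : Prop :=
  A ⊆ W ∧ ∃ F, Bas M F ∧ (A \ F).card + (S \ F).card ≤ 1

theorem UU_down {M : Finset (Finset (Fin n))} {W S : Finset (Fin n)} :
    ∀ A B, UU M W S A → B ⊆ A → UU M W S B := by
  rintro A B ⟨h1, F, hF, h2⟩ h3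
  refine ⟨h3.trans h1, F, hF, ?_⟩
  have := Finset.card_le_card (Finset.sdiff_subset_sdiff h3 (Finset.Subset.refl F))
  omega

theorem UU_of_mem {M : Finset (Finset (Fin n))} (hM : IsMatroid M) {W S A X : Finset (Fin n)}
    {s : Fin n} (hX : X ∈ M) (hA : A ⊆ X) (hS : S.erase s ⊆ X) (hW : A ⊆ W) : UU M W S A := by
  obtain ⟨B, hB⟩ := exists_bas hM
  obtain ⟨F, hF, h1, -⟩ := extend_bas hM hX hB
  refine ⟨hW, F, hF, ?_⟩
  have h2 : A \ F = ∅ := Finset.sdiff_eq_empty_iff_subset.2 (hA.trans h1)
  have h3 : (S \ F).card ≤ 1 := by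
    have : S \ F ⊆ {s} := by
      intro x hx
      rw [Finset.mem_sdiff] at hx
      rw [Finset.mem_singleton]
      by_contra h4
      exact hx.2 (h1 (hS (Finset.mem_erase.2 ⟨h4, hx.1⟩)))
    exact (Finset.card_le_card this).trans (by simp)
  rw [h2, Finset.card_empty, zero_add]
  exact h3

theorem mf_empty {M : Finset (Finset (Fin n))} (hM : IsMatroid M) (W : Finset (Fin n)) :
    MF W (UU M W ∅) := by
  refine ⟨?_, fun A h => h.1, UU_down, ?_⟩
  · obtain ⟨F, hF⟩ := exists_bas hM
    exact ⟨Finset.empty_subset _, F, hF, by simp⟩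
  · rintro A B ⟨hAW, FA, hFA, hA⟩ ⟨hBW, FB, hFB, hB⟩ hlt
    rw [Finset.empty_sdiff, Finset.card_empty, add_zero] at hA hB
    have cA := Finset.card_sdiff_add_card_inter A FA
    have cB := Finset.card_sdiff_add_card_inter B FB
    have iA : A ∩ FA ∈ M := hM.2.1 FA hFA.1 _ Finset.inter_subset_right
    have iB : B ∩ FB ∈ M := hM.2.1 FB hFB.1 _ Finset.inter_subset_right
    by_cases hAM : A ∈ M
    · obtain ⟨x, hx, hxA⟩ : ∃ x ∈ B, x ∉ A := by
        by_contra h
        push Not at h
        have := Finset.card_le_card (fun x hx => h x hx : B ⊆ A)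
        omega
      obtain ⟨F, hF, h1, -⟩ := extend_bas hM hAM hFA
      refine ⟨x, hx, hxA, Finset.insert_subset (hBW hx) hAW, F, hF, ?_⟩
      rw [Finset.empty_sdiff, Finset.card_empty, add_zero]
      have h2 : insert x A \ F ⊆ {x} := by
        intro y hy
        rw [Finset.mem_sdiff, Finset.mem_insert] at hy
        rw [Finset.mem_singleton]
        exact hy.1.resolve_right fun h => hy.2 (h1 h)
      exact (Finset.card_le_card h2).trans (by simp)
    · have hAne : A ∩ FA ≠ A := fun h => hAM (h ▸ iA)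
      have hlt2 : (A ∩ FA).card < A.card :=
        Finset.card_lt_card (Finset.inter_subset_left.ssubset_of_ne hAne)
      obtain ⟨x, hx, hxA, hxM⟩ := hM.2.2 _ iA _ iB (by omega)
      have hxB : x ∈ B := Finset.inter_subset_left hx
      have hxA' : x ∉ A := by
        intro h
        apply hAM
        have h1 : insert x (A ∩ FA) ⊆ A := Finset.insert_subset h Finset.inter_subset_left
        have h2 : A.card ≤ (insert x (A ∩ FA)).card := by
          rw [Finset.card_insert_of_notMem hxA]; omega
        rw [← Finset.eq_of_subset_of_card_le h1 h2]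
        exact hxM
      obtain ⟨F, hF, h1, -⟩ := extend_bas hM hxM hFA
      refine ⟨x, hxB, hxA', Finset.insert_subset (hBW hxB) hAW, F, hF, ?_⟩
      rw [Finset.empty_sdiff, Finset.card_empty, add_zero]
      have h2 : insert x A \ F ⊆ A \ FA := by
        intro y hy
        rw [Finset.mem_sdiff, Finset.mem_insert] at hy
        obtain ⟨hy1, hy2⟩ := hy
        have h3 : y ≠ x := fun h => hy2 (h1 (h ▸ Finset.mem_insert_self _ _))
        have h4 := hy1.resolve_left h3
        refine Finset.mem_sdiff.2 ⟨h4, fun h5 => hy2 (h1 (Finset.mem_insert_of_mem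
          (Finset.mem_inter.2 ⟨h4, h5⟩)))⟩
      exact (Finset.card_le_card h2).trans hA

theorem circ_change {M : Finset (Finset (Fin n))} (hM : IsMatroid M) {S Z : Finset (Fin n)}
    (hS : IsCircuit M S) (hZ : Disjoint Z S) {s t : Fin n} (hs : s ∈ S) (ht : t ∈ S)
    (h : Z ∪ S.erase s ∈ M) : Z ∪ S.erase t ∈ M := by
  have h1 : S.erase t ∈ M := hS.2 _ (Finset.erase_ssubset ht)
  obtain ⟨C, h2, h3, h4, h5⟩ := hM.mf.extend h1 h
  have htC : t ∉ C := by
    intro h6
    apply hS.1
    refine hM.2.1 C h3 S fun x hx => ?_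
    by_cases h7 : x = t
    · rw [h7]; exact h6
    · exact h2 (Finset.mem_erase.2 ⟨h7, hx⟩)
  have h6 : C ⊆ Z ∪ S.erase t := by
    intro x hx
    have hxt : x ≠ t := fun h => htC (h ▸ hx)
    have h7 := h5 hx
    simp only [Finset.mem_union, Finset.mem_erase] at h7 ⊢
    tauto
  have d1 : ∀ u ∈ S, (Z ∪ S.erase u).card = Z.card + (S.card - 1) := by
    intro u hu
    rw [Finset.card_union_of_disjoint (hZ.mono_right (Finset.erase_subset _ _)),
      Finset.card_erase_of_mem hu]
  have h7 : C = Z ∪ S.erase t := by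
    refine Finset.eq_of_subset_of_card_le h6 ?_
    rw [d1 t ht, ← d1 s hs]
    exact h4
  rw [← h7]
  exact h3

theorem mf_circuit {M : Finset (Finset (Fin n))} (hM : IsMatroid M) {W S : Finset (Fin n)}
    (hS : IsCircuit M S) : MF W (UU M W S) := by
  have hSne : S.Nonempty := by
    rw [Finset.nonempty_iff_ne_empty]
    intro h
    exact hS.1 (h ▸ hM.1)
  -- unpacking
  have un : ∀ A, UU M W S A → ∃ s ∈ S, s ∉ A ∧ (A \ S) ∪ S.erase s ∈ M := by
    rintro A ⟨-, F, hF, h⟩
    have h1 : (S \ F).Nonempty := by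
      rw [Finset.sdiff_nonempty]
      intro h2
      exact hS.1 (hM.2.1 F hF.1 S h2)
    have h2 := Finset.card_pos.2 h1
    have h3 : A \ F = ∅ := Finset.card_eq_zero.1 (by omega)
    have h4 : A ⊆ F := Finset.sdiff_eq_empty_iff_subset.1 h3
    obtain ⟨s, hs⟩ := Finset.card_eq_one.1 (show (S \ F).card = 1 by omega)
    have h5 : s ∈ S \ F := by rw [hs]; simp
    rw [Finset.mem_sdiff] at h5
    refine ⟨s, h5.1, fun h => h5.2 (h4 h), hM.2.1 F hF.1 _ ?_⟩
    intro x hx
    rcases Finset.mem_union.1 hx with hx | hx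
    · exact h4 (Finset.mem_sdiff.1 hx).1
    · by_contra h6
      have : x ∈ S \ F := Finset.mem_sdiff.2 ⟨Finset.mem_of_mem_erase hx, h6⟩
      rw [hs, Finset.mem_singleton] at this
      exact (Finset.mem_erase.1 hx).1 this
  refine ⟨?_, fun A h => h.1, UU_down, ?_⟩
  · obtain ⟨s, hs⟩ := hSne
    exact UU_of_mem hM (s := s) (hS.2 _ (Finset.erase_ssubset hs)) (Finset.empty_subset _)
      (Finset.Subset.refl _) (Finset.empty_subset _)
  · intro A B hA hB hlt
    obtain ⟨s, hs, hsA, hsM⟩ := un A hA
    obtain ⟨t, ht, htB, htM⟩ := un B hB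
    have dA : Disjoint (A \ S) S := Finset.sdiff_disjoint
    have dB : Disjoint (B \ S) S := Finset.sdiff_disjoint
    have cA := Finset.card_sdiff_add_card_inter A S
    have cB := Finset.card_sdiff_add_card_inter B S
    have hBs := circ_change hM hS dB ht hs htM
    have hsub : ∀ u ∈ S, u ∉ A → A ⊆ (A \ S) ∪ S.erase u := by
      intro u _ huA x hx
      simp only [Finset.mem_union, Finset.mem_sdiff, Finset.mem_erase]
      by_cases h : x ∈ S
      · exact Or.inr ⟨fun h2 => huA (h2 ▸ hx), h⟩
      · exact Or.inl ⟨hx, h⟩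
    by_cases hc : (A \ S).card < (B \ S).card
    · have c1 : ((A \ S) ∪ S.erase s).card = (A \ S).card + (S.card - 1) := by
        rw [Finset.card_union_of_disjoint (dA.mono_right (Finset.erase_subset _ _)),
          Finset.card_erase_of_mem hs]
      have c2 : ((B \ S) ∪ S.erase s).card = (B \ S).card + (S.card - 1) := by
        rw [Finset.card_union_of_disjoint (dB.mono_right (Finset.erase_subset _ _)),
          Finset.card_erase_of_mem hs]
      obtain ⟨x, hx, hxn, hxM⟩ := hM.2.2 _ hsM _ hBs (by omega)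
      rw [Finset.mem_union, not_or] at hxn
      have hx2 : x ∈ B \ S := (Finset.mem_union.1 hx).resolve_right hxn.2
      rw [Finset.mem_sdiff] at hx2
      have hxA : x ∉ A := fun h => hxn.1 (Finset.mem_sdiff.2 ⟨h, hx2.2⟩)
      refine ⟨x, hx2.1, hxA, UU_of_mem hM (s := s) hxM ?_ ?_ ?_⟩
      · exact Finset.insert_subset_insert _ (hsub s hs hsA)
      · exact Finset.subset_union_right.trans (Finset.subset_insert _ _)
      · exact Finset.insert_subset (hB.1 hx2.1) hA.1
    · have h1 : (A ∩ S).card < (B ∩ S).card := by omega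
      obtain ⟨x, hx, hxA⟩ : ∃ x ∈ B ∩ S, x ∉ A ∩ S := by
        by_contra h
        push Not at h
        have := Finset.card_le_card (fun x hx => h x hx : B ∩ S ⊆ A ∩ S)
        omega
      rw [Finset.mem_inter] at hx
      have hxA' : x ∉ A := fun h => hxA (Finset.mem_inter.2 ⟨h, hx.2⟩)
      have h2 : (B ∩ S).card ≤ S.card - 1 := by
        have : B ∩ S ⊆ S.erase t := by
          intro y hy
          rw [Finset.mem_inter] at hy
          exact Finset.mem_erase.2 ⟨fun h => htB (h ▸ hy.1), hy.2⟩
        have := Finset.card_le_card this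
        rwa [Finset.card_erase_of_mem ht] at this
      have hS0 : 0 < S.card := Finset.card_pos.2 ⟨s, hs⟩
      obtain ⟨u, hu, huA⟩ : ∃ u ∈ S, u ∉ insert x (A ∩ S) := by
        by_contra h
        push Not at h
        have h3 := Finset.card_le_card (fun y hy => h y hy : S ⊆ insert x (A ∩ S))
        rw [Finset.card_insert_of_notMem hxA] at h3
        omega
      rw [Finset.mem_insert, not_or] at huA
      have huA' : u ∉ A := fun h => huA.2 (Finset.mem_inter.2 ⟨h, hu⟩)
      have h4 := circ_change hM hS dA hs hu hsM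
      refine ⟨x, hx.1, hxA', UU_of_mem hM (s := u) h4 ?_ Finset.subset_union_right ?_⟩
      · refine Finset.insert_subset (Finset.mem_union_right _ (Finset.mem_erase.2
          ⟨fun h => huA.1 h.symm, hx.2⟩)) (hsub u hu huA')
      · exact Finset.insert_subset (hB.1 hx.1) hA.1

theorem rel_main {k : Type*} [CommRing k] {M : Finset (Finset (Fin n))} (hM : IsMatroid M)
    {W S : Finset (Fin n)} (hSW : S ⊆ W) {i : ℕ} (hn : n = rank M + i + 1) (hne : W.Nonempty)
    (hex : ¬ (IsCircuit M S ∧ ∀ z, (∃ F, Bas M F ∧ z ∉ F) → z ∈ W)) :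
    RelAcyc k (fun T => T ⊆ W ∧ UU M W S (W \ T)) (i + 1) := by
  classical
  have hcard : ∀ F : Finset (Fin n), Bas M F → (F ∩ W).card + (F \ W).card = rank M := by
    intro F hF
    have := Finset.card_inter_add_card_sdiff F W
    rw [hF.2] at this
    exact this
  have hWc : (Finset.univ \ W).card + W.card = n := by
    have := Finset.card_sdiff_add_card_eq_card (Finset.subset_univ W)
    rwa [Finset.card_univ, Fintype.card_fin] at this
  by_cases h1 : ∃ F, Bas M F ∧ (S \ F).card ≤ 1
  swap
  · refine relAcyc_of_empty _ _ ?_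
    rintro T ⟨-, -, F, hF, h2⟩ -
    exact h1 ⟨F, hF, by omega⟩
  by_cases hSM : S ∈ M
  · by_cases hS0 : S = ∅
    · subst hS0
      by_cases hWM : W ∈ M
      · obtain ⟨e, he⟩ := hne
        exact cone_rel he UU_down (fun A hA _ => UU_of_mem hM (s := e) hWM
          (Finset.insert_subset he hA) (by simp) (Finset.insert_subset he hA)) _
      · refine MF.relAcyc W.card W _ _ rfl (mf_empty hM W) ?_
        obtain ⟨F, hF⟩ := exists_bas hM
        obtain ⟨x, hx, hxF⟩ : ∃ x ∈ W, x ∉ F := by
          by_contra h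
          push Not at h
          exact hWM (hM.2.1 F hF.1 W (fun x hx => h x hx))
        refine ⟨insert x (F ∩ W), ⟨Finset.insert_subset hx Finset.inter_subset_right, F, hF, ?_⟩, ?_⟩
        · rw [Finset.empty_sdiff, Finset.card_empty, add_zero]
          have h2 : insert x (F ∩ W) \ F ⊆ {x} := by
            intro y hy
            rw [Finset.mem_sdiff, Finset.mem_insert] at hy
            rw [Finset.mem_singleton]
            exact hy.1.resolve_right fun h => hy.2 (Finset.inter_subset_left h)
          exact (Finset.card_le_card h2).trans (by simp)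
        · rw [Finset.card_insert_of_notMem (fun h => hxF (Finset.inter_subset_left h))]
          have h2 := hcard F hF
          have h3 : (F \ W).card ≤ (Finset.univ \ W).card :=
            Finset.card_le_card (Finset.sdiff_subset_sdiff (Finset.subset_univ F)
              (Finset.Subset.refl W))
          omega
    · obtain ⟨e, he⟩ := Finset.nonempty_iff_ne_empty.2 hS0
      refine cone_rel (hSW he) UU_down (fun A _ hA => ?_) _
      obtain ⟨hAW, F, hF, h2⟩ := hA
      by_cases heF : e ∈ F
      · refine ⟨Finset.insert_subset (hSW he) hAW, F, hF, ?_⟩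
        rw [Finset.insert_sdiff_of_mem _ heF]
        exact h2
      · have h3 : e ∈ S \ F := Finset.mem_sdiff.2 ⟨he, heF⟩
        have h4 : 0 < (S \ F).card := Finset.card_pos.2 ⟨e, h3⟩
        have h5 : A \ F = ∅ := Finset.card_eq_zero.1 (by omega)
        have h6 : A ⊆ F := Finset.sdiff_eq_empty_iff_subset.1 h5
        have h7 : S \ F = {e} := by
          obtain ⟨y, hy⟩ := Finset.card_eq_one.1 (show (S \ F).card = 1 by omega)
          rw [hy, Finset.mem_singleton] at h3
          rw [hy, h3]
        obtain ⟨F', hF', g1, g2⟩ := extend_bas hM hSM hF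
        refine ⟨Finset.insert_subset (hSW he) hAW, F', hF', ?_⟩
        have g3 : S \ F' = ∅ := Finset.sdiff_eq_empty_iff_subset.2 g1
        rw [g3, Finset.card_empty, add_zero, Finset.insert_sdiff_of_mem _ (g1 he)]
        have g4 : F' \ F ⊆ {e} := by
          intro y hy
          rw [Finset.mem_sdiff] at hy
          have := (Finset.mem_union.1 (g2 hy.1)).resolve_right hy.2
          rw [← h7]
          exact Finset.mem_sdiff.2 ⟨this, hy.2⟩
        have g5 : (F' \ F).card ≤ 1 := (Finset.card_le_card g4).trans (by simp)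
        have g6 : (F \ F').card = (F' \ F).card :=
          (Finset.card_sdiff_comm (hF'.2.trans hF.2.symm)).symm
        have g7 : (A \ F').card ≤ (F \ F').card :=
          Finset.card_le_card (Finset.sdiff_subset_sdiff h6 (Finset.Subset.refl _))
        omega
  · by_cases hG : ∃ G, G ⊂ S ∧ G ∉ M
    · obtain ⟨G, hGS, hGM⟩ := hG
      obtain ⟨e, he, heG⟩ := Finset.exists_of_ssubset hGS
      refine cone_rel (hSW he) UU_down (fun A _ hA => ?_) _
      obtain ⟨hAW, F, hF, h2⟩ := hA
      refine ⟨Finset.insert_subset (hSW he) hAW, F, hF, ?_⟩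
      have h3 : (G \ F).Nonempty := by
        rw [Finset.sdiff_nonempty]
        intro h4
        exact hGM (hM.2.1 F hF.1 G h4)
      obtain ⟨y, hy⟩ := h3
      rw [Finset.mem_sdiff] at hy
      have heF : e ∈ F := by
        by_contra heF
        have h4 : ({e, y} : Finset (Fin n)) ⊆ S \ F := by
          intro z hz
          rw [Finset.mem_insert, Finset.mem_singleton] at hz
          rcases hz with rfl | rfl
          · exact Finset.mem_sdiff.2 ⟨he, heF⟩
          · exact Finset.mem_sdiff.2 ⟨hGS.1 hy.1, hy.2⟩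
        have h5 := Finset.card_le_card h4
        rw [Finset.card_pair (show e ≠ y from fun h => heG (by rw [h]; exact hy.1))] at h5
        omega
      rw [Finset.insert_sdiff_of_mem _ heF]
      exact h2
    · push Not at hG
      have hcirc : IsCircuit M S := ⟨hSM, hG⟩
      have hz : ∃ z, (∃ F, Bas M F ∧ z ∉ F) ∧ z ∉ W := by
        by_contra h
        push Not at h
        exact hex ⟨hcirc, h⟩
      obtain ⟨z, ⟨F₀, hF₀, hzF₀⟩, hzW⟩ := hz
      refine MF.relAcyc W.card W _ _ rfl (mf_circuit hM hcirc) ?_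
      have hSne : S.Nonempty := by
        rw [Finset.nonempty_iff_ne_empty]
        intro h
        exact hSM (h ▸ hM.1)
      obtain ⟨s, hs⟩ := hSne
      obtain ⟨F, hF, g1, g2⟩ := extend_bas hM (hG _ (Finset.erase_ssubset hs)) hF₀
      have hzF : z ∉ F := by
        intro h
        rcases Finset.mem_union.1 (g2 h) with h | h
        · exact hzW (hSW (Finset.mem_of_mem_erase h))
        · exact hzF₀ h
      refine ⟨F ∩ W, UU_of_mem hM (s := s) hF.1 Finset.inter_subset_left g1
        Finset.inter_subset_right, ?_⟩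
      have h2 := hcard F hF
      have h3 : (F \ W).card ≤ ((Finset.univ \ W).erase z).card := by
        refine Finset.card_le_card fun x hx => ?_
        rw [Finset.mem_sdiff] at hx
        refine Finset.mem_erase.2 ⟨fun h => hzF (h ▸ hx.1), Finset.mem_sdiff.2
          ⟨Finset.mem_univ _, hx.2⟩⟩
      rw [Finset.card_erase_of_mem (Finset.mem_sdiff.2 ⟨Finset.mem_univ z, hzW⟩)] at h3
      have h4 : 0 < (Finset.univ \ W).card :=
        Finset.card_pos.2 ⟨z, Finset.mem_sdiff.2 ⟨Finset.mem_univ z, hzW⟩⟩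
      omega

end Pool.Agent.Q123.ML
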