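import Pool.Agent.Q123.KB.Kod

set_option autoImplicit false

/-!
The cohomology of the complex of independent sets of a matroid vanishes below the rank.
-/

namespace Pool.Agent.Q123.ML

open Finset Pool.Agent.H677R3.EdgeReg

variable {n : ℕ} {k : Type*} [CommRing k]

/-- the independent sets of a matroid on `W` -/
structure MF (W : Finset (Fin n)) (U : Finset (Fin n) → Prop) : Prop where
  empty : U ∅
  sub : ∀ A, U A → A ⊆ W
  down : ∀ A B, U A → B ⊆ A → U B
  exch : ∀ A B, U A → U B → A.card < B.card → ∃ x ∈ B, x ∉ A ∧ U (insert x A)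

theorem MF.extend {W : Finset (Fin n)} {U : Finset (Fin n) → Prop} (h : MF W U)
    {A B : Finset (Fin n)} (hA : U A) (hB : U B) :
    ∃ C, A ⊆ C ∧ U C ∧ B.card ≤ C.card ∧ C ⊆ A ∪ B := by
  classical
  obtain ⟨C, hC, hmax⟩ := Finset.exists_max_image
    ((Finset.univ : Finset (Finset (Fin n))).filter fun C => A ⊆ C ∧ U C ∧ C ⊆ A ∪ B)
    Finset.card ⟨A, by simp [hA]⟩
  rw [Finset.mem_filter] at hC
  obtain ⟨-, h1, h2, h3⟩ := hC
  refine ⟨C, h1, h2, ?_, h3⟩
  by_contra hlt
  obtain ⟨x, hx, hxC, hU⟩ := h.exch C B h2 hB (by omega)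
  have := hmax (insert x C) (Finset.mem_filter.2 ⟨Finset.mem_univ _,
    h1.trans (Finset.subset_insert _ _), hU, Finset.insert_subset
      (Finset.mem_union_right _ hx) h3⟩)
  rw [Finset.card_insert_of_notMem hxC] at this
  omega

theorem cone_rel {W : Finset (Fin n)} {U : Finset (Fin n) → Prop} {e : Fin n} (he : e ∈ W)
    (hd : ∀ A B, U A → B ⊆ A → U B) (hc : ∀ A, A ⊆ W → U A → U (insert e A)) (l : ℕ) :
    RelAcyc k (fun T => T ⊆ W ∧ U (W \ T)) l := by
  refine relAcyc_toggle _ l e fun T hT => ?_
  constructor
  · rintro ⟨h1, h2⟩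
    exact ⟨Finset.insert_subset he h1, hd _ _ h2
      (Finset.sdiff_subset_sdiff (Finset.Subset.refl W) (Finset.subset_insert e T))⟩
  · rintro ⟨h1, h2⟩
    refine ⟨(Finset.subset_insert _ _).trans h1, ?_⟩
    have h3 := hc _ Finset.sdiff_subset h2
    have h4 : insert e (W \ insert e T) = W \ T := by
      ext x
      simp only [Finset.mem_insert, Finset.mem_sdiff, not_or]
      constructor
      · rintro (rfl | ⟨h5, h6, h7⟩)
        · exact ⟨he, hT⟩
        · exact ⟨h5, h7⟩
      · rintro ⟨h5, h6⟩
        by_cases h7 : x = e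
        · exact Or.inl h7
        · exact Or.inr ⟨h5, h7, h6⟩
    rwa [h4] at h3

/-- adding an element to all sets of a family -/
theorem relAcyc_shift (e : Fin n) (Q : Finset (Fin n) → Prop) (hQ : ∀ T, Q T → e ∉ T) (l : ℕ)
    (h : RelAcyc k Q l) : RelAcyc k (fun T => e ∈ T ∧ Q (T.erase e)) (l + 1) := by
  classical
  intro a ha hca
  let a' : Finset (Fin n) → k := fun T => if e ∈ T then 0 else sg k e T * a (insert e T)
  have h0 : ∀ T, hv e a' T = a T := by
    intro T
    by_cases he : e ∈ T
    · unfold hv
      rw [if_pos he]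
      simp only [a']
      rw [if_neg (Finset.notMem_erase e T), Finset.insert_erase he, ← mul_assoc, sg_mul_self,
        one_mul]
    · unfold hv
      rw [if_neg he]
      by_contra h1
      exact he (ha T (fun h2 => h1 h2.symm)).1.1
  have h0' : hv e a' = a := funext h0
  have h1 : ∀ T, a' T ≠ 0 → Q T ∧ T.card = l := by
    intro T hT
    simp only [a'] at hT
    split_ifs at hT with he
    · exact absurd rfl hT
    · have h2 : a (insert e T) ≠ 0 := fun h => hT (by rw [h, mul_zero])
      obtain ⟨⟨-, h3⟩, h4⟩ := ha _ h2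
      rw [Finset.erase_insert he] at h3
      rw [Finset.card_insert_of_notMem he] at h4
      exact ⟨h3, by omega⟩
  have h2 : ∀ T, Q T → cd a' T = 0 := by
    intro T hT
    have he := hQ T hT
    have h3 := homotopy e a' (insert e T)
    rw [h0', hca (insert e T) ⟨Finset.mem_insert_self _ _, by rwa [Finset.erase_insert he]⟩] at h3
    have h4 : a' (insert e T) = 0 := if_pos (Finset.mem_insert_self _ _)
    rw [h4, zero_add] at h3
    unfold hv at h3
    rw [if_pos (Finset.mem_insert_self _ _), Finset.erase_insert he] at h3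
    have h5 : sg k e T * (sg k e T * cd a' T) = 0 := by rw [h3, mul_zero]
    rwa [← mul_assoc, sg_mul_self, one_mul] at h5
  obtain ⟨c, hc1, hc2⟩ := h a' h1 h2
  refine ⟨fun T => -1 * hv e c T, fun T hT => ?_, fun T hT => ?_⟩
  · have h3 : hv e c T ≠ 0 := fun h => hT (by simp only [h, mul_zero])
    unfold hv at h3
    split_ifs at h3 with he
    · have h4 : c (T.erase e) ≠ 0 := fun h => h3 (by rw [h, mul_zero])
      obtain ⟨h5, h6⟩ := hc1 _ h4
      refine ⟨⟨he, h5⟩, ?_⟩
      rw [Finset.card_erase_of_mem he] at h6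
      have : 0 < T.card := Finset.card_pos.2 ⟨e, he⟩
      omega
    · exact absurd rfl h3
  · obtain ⟨he, hQT⟩ := hT
    rw [cd_smul]
    have h3 := homotopy e c T
    have h4 : c T = 0 := by
      by_contra h5
      exact hQ T (hc1 T h5).1 he
    rw [h4] at h3
    have h5 : hv e (cd c) T = a T := by
      unfold hv
      rw [if_pos he, hc2 _ hQT]
      simp only [a']
      rw [if_neg (Finset.notMem_erase e T), Finset.insert_erase he, ← mul_assoc, sg_mul_self,
        one_mul]
    rw [h5] at h3
    linear_combination -h3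

theorem MF.relAcyc : ∀ (m : ℕ) (W : Finset (Fin n)) (U : Finset (Fin n) → Prop) (l : ℕ),
    W.card = m → MF W U → (∃ A, U A ∧ W.card < l + A.card) →
    RelAcyc k (fun T => T ⊆ W ∧ U (W \ T)) l := by
  classical
  intro m
  induction m with
  | zero =>
    intro W U l hW hU hA
    obtain ⟨A, hA, hlt⟩ := hA
    refine relAcyc_of_empty _ l ?_
    rintro T ⟨h1, -⟩ h2
    have h3 := Finset.card_le_card h1
    have h4 := Finset.card_le_card (hU.sub A hA)
    omega
  | succ m ih =>
    intro W U l hW hU hA
    obtain ⟨A₀, hA₀, hlt⟩ := hA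
    obtain ⟨e, he⟩ : W.Nonempty := Finset.card_pos.1 (by omega)
    have hWe : (W.erase e).card = m := by rw [Finset.card_erase_of_mem he]; omega
    by_cases hcone : ∀ A, U A → U (insert e A)
    · exact cone_rel he hU.down (fun A _ hA => hcone A hA) l
    push Not at hcone
    obtain ⟨A', hA', hA'e⟩ := hcone
    have heA' : e ∉ A' := fun h => hA'e (by rwa [Finset.insert_eq_of_mem h])
    obtain ⟨C, hC1, hC2, hC3, -⟩ := hU.extend hA' hA₀
    have heC : e ∉ C := fun h => hA'e (hU.down _ _ hC2 (Finset.insert_subset h hC1))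
    -- the deletion
    have hdel : MF (W.erase e) (fun A => U A ∧ e ∉ A) := by
      refine ⟨⟨hU.empty, by simp⟩, ?_, ?_, ?_⟩
      · rintro A ⟨h1, h2⟩ x hx
        exact Finset.mem_erase.2 ⟨fun h => h2 (h ▸ hx), hU.sub A h1 hx⟩
      · rintro A B ⟨h1, h2⟩ h3
        exact ⟨hU.down A B h1 h3, fun h => h2 (h3 h)⟩
      · rintro A B ⟨h1, h2⟩ ⟨h3, h4⟩ h5
        obtain ⟨x, hx, hxA, h6⟩ := hU.exch A B h1 h3 h5
        refine ⟨x, hx, hxA, h6, ?_⟩
        rw [Finset.mem_insert, not_or]
        exact ⟨fun h => h4 (h ▸ hx), h2⟩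
    have hQ1 : RelAcyc k (fun T => e ∈ T ∧ (fun T' => T' ⊆ W.erase e ∧
        (U (W.erase e \ T') ∧ e ∉ W.erase e \ T')) (T.erase e)) l := by
      rcases l with _ | l
      · refine relAcyc_of_empty _ 0 ?_
        rintro T ⟨h1, -⟩ h2
        rw [Finset.card_eq_zero] at h2
        rw [h2] at h1
        simp at h1
      · exact relAcyc_shift e _ (fun T hT h => (Finset.mem_erase.1 (hT.1 h)).1 rfl) l
          (ih (W.erase e) (fun A => U A ∧ e ∉ A) l hWe hdel ⟨C, ⟨hC2, heC⟩, by omega⟩)
    have hset : ∀ T, e ∈ T → W.erase e \ T.erase e = W \ T := by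
      intro T hT
      ext x
      simp only [Finset.mem_sdiff, Finset.mem_erase, not_and]
      constructor
      · rintro ⟨⟨h1, h2⟩, h3⟩
        exact ⟨h2, h3 h1⟩
      · rintro ⟨h1, h2⟩
        have : x ≠ e := fun h => h2 (h ▸ hT)
        exact ⟨⟨this, h1⟩, fun _ => h2⟩
    by_cases hloop : U {e}
    · -- the contraction
      have hcon : MF (W.erase e) (fun A => e ∉ A ∧ U (insert e A)) := by
        refine ⟨⟨by simp, by simpa using hloop⟩, ?_, ?_, ?_⟩
        · rintro A ⟨h1, h2⟩ x hx
          exact Finset.mem_erase.2 ⟨fun h => h1 (h ▸ hx),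
            hU.sub _ h2 (Finset.mem_insert_of_mem hx)⟩
        · rintro A B ⟨h1, h2⟩ h3
          exact ⟨fun h => h1 (h3 h), hU.down _ _ h2 (Finset.insert_subset_insert _ h3)⟩
        · rintro A B ⟨h1, h2⟩ ⟨h3, h4⟩ h5
          obtain ⟨x, hx, hxA, h6⟩ := hU.exch _ _ h2 h4 (by
            rw [Finset.card_insert_of_notMem h1, Finset.card_insert_of_notMem h3]; omega)
          rw [Finset.mem_insert, not_or] at hxA
          have hxB : x ∈ B := (Finset.mem_insert.1 hx).resolve_left hxA.1
          refine ⟨x, hxB, hxA.2, ?_, ?_⟩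
          · rw [Finset.mem_insert, not_or]
            exact ⟨fun h => hxA.1 h.symm, h1⟩
          · rwa [Finset.insert_comm]
      obtain ⟨D, hD1, hD2, hD3, -⟩ := hU.extend hloop hA₀
      have heD : e ∈ D := hD1 (Finset.mem_singleton_self e)
      have hDc : 0 < D.card := Finset.card_pos.2 ⟨e, heD⟩
      have hQ0 := ih (W.erase e) (fun A => e ∉ A ∧ U (insert e A)) l hWe hcon
        ⟨D.erase e, ⟨Finset.notMem_erase e D, by rwa [Finset.insert_erase heD]⟩, by
          rw [Finset.card_erase_of_mem heD]; omega⟩
      refine relAcyc_filtration _ l (fun T => if e ∈ T then 0 else 1) ?_ ?_ ?_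
      · rintro T j ⟨h1, h2⟩ hj i hi ⟨h3, h4⟩
        exact ⟨(Finset.subset_insert _ _).trans h3, hU.down _ _ h2
          (Finset.sdiff_subset_sdiff (Finset.Subset.refl W) (Finset.subset_insert j T))⟩
      · intro T j hj h1 h2
        by_cases h3 : e ∈ T
        · rw [if_pos h3, if_pos (Finset.mem_insert_of_mem h3)]
        · rw [if_neg h3]
          split_ifs <;> omega
      · intro t
        by_cases ht0 : t = 0
        · subst ht0
          have heq : (fun T : Finset (Fin n) => (T ⊆ W ∧ U (W \ T)) ∧
              (if e ∈ T then 0 else 1) = 0) = (fun T => e ∈ T ∧ (fun T' => T' ⊆ W.erase e ∧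
              (U (W.erase e \ T') ∧ e ∉ W.erase e \ T')) (T.erase e)) := by
            funext T
            apply propext
            constructor
            · rintro ⟨⟨h1, h2⟩, h3⟩
              have h4 : e ∈ T := by
                by_contra h4
                rw [if_neg h4] at h3
                exact absurd h3 one_ne_zero
              refine ⟨h4, Finset.erase_subset_erase _ h1, ?_, ?_⟩
              · rwa [hset T h4]
              · simp
            · rintro ⟨h1, h2, h3, h4⟩
              rw [hset T h1] at h3
              refine ⟨⟨?_, h3⟩, if_pos h1⟩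
              intro x hx
              by_cases h5 : x = e
              · rw [h5]; exact he
              · exact (Finset.mem_erase.1 (h2 (Finset.mem_erase.2 ⟨h5, hx⟩))).2
          rw [heq]
          exact hQ1
        by_cases ht1 : t = 1
        · subst ht1
          have heq : (fun T : Finset (Fin n) => (T ⊆ W ∧ U (W \ T)) ∧
              (if e ∈ T then 0 else 1) = 1) = (fun T => T ⊆ W.erase e ∧
                (e ∉ W.erase e \ T ∧ U (insert e (W.erase e \ T)))) := by
            funext T
            apply propext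
            have hs : e ∉ T → insert e (W.erase e \ T) = W \ T := by
              intro h
              ext x
              simp only [Finset.mem_insert, Finset.mem_sdiff, Finset.mem_erase]
              constructor
              · rintro (rfl | ⟨⟨h5, h6⟩, h7⟩)
                · exact ⟨he, h⟩
                · exact ⟨h6, h7⟩
              · rintro ⟨h5, h6⟩
                by_cases h7 : x = e
                · exact Or.inl h7
                · exact Or.inr ⟨⟨h7, h5⟩, h6⟩
            constructor
            · rintro ⟨⟨h1, h2⟩, h3⟩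
              have h4 : e ∉ T := by
                intro h4
                rw [if_pos h4] at h3
                exact absurd h3 zero_ne_one
              refine ⟨fun x hx => Finset.mem_erase.2 ⟨fun h => h4 (h ▸ hx), h1 hx⟩, by simp, ?_⟩
              rwa [hs h4]
            · rintro ⟨h1, h2, h3⟩
              have h4 : e ∉ T := fun h => (Finset.mem_erase.1 (h1 h)).1 rfl
              rw [hs h4] at h3
              exact ⟨⟨h1.trans (Finset.erase_subset _ _), h3⟩, if_neg h4⟩
          rw [heq]
          exact hQ0
        · refine relAcyc_of_empty _ l ?_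
          rintro T ⟨-, h2⟩ -
          split_ifs at h2 <;> omega
    · have heq : (fun T : Finset (Fin n) => T ⊆ W ∧ U (W \ T)) =
          (fun T => e ∈ T ∧ (fun T' => T' ⊆ W.erase e ∧
              (U (W.erase e \ T') ∧ e ∉ W.erase e \ T')) (T.erase e)) := by
        funext T
        apply propext
        constructor
        · rintro ⟨h1, h2⟩
          have h4 : e ∈ T := by
            by_contra h4
            exact hloop (hU.down _ _ h2 (Finset.singleton_subset_iff.2
              (Finset.mem_sdiff.2 ⟨he, h4⟩)))
          refine ⟨h4, Finset.erase_subset_erase _ h1, ?_, ?_⟩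
          · rwa [hset T h4]
          · simp
        · rintro ⟨h1, h2, h3, h4⟩
          rw [hset T h1] at h3
          refine ⟨?_, h3⟩
          intro x hx
          by_cases h5 : x = e
          · rw [h5]; exact he
          · exact (Finset.mem_erase.1 (h2 (Finset.mem_erase.2 ⟨h5, hx⟩))).2
      rw [heq]
      exact hQ1

end Pool.Agent.Q123.ML
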