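import Pool.Agent.Q123.ML.Van

set_option autoImplicit false

/-!
The second symbolic power of the Stanley-Reisner ideal of a matroid.
-/

namespace Pool.Agent.Q123.ML

open Finset MvPolynomial Pool.Agent.H677R3.EdgeReg Pool.Agent.Q123.KB
open scoped Pointwise

variable {n : ℕ} {K : Type*} [Field K]

/-- The Stanley-Reisner ideal: it is generated by the monomials `∏_{i ∈ F} x_i`, `F` not a face. -/
noncomputable def srIdeal (K : Type*) [Field K] {n : ℕ} (M : Finset (Finset (Fin n))) :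
    Ideal (MvPolynomial (Fin n) K) :=
  Ideal.span {p | ∃ F : Finset (Fin n), F ∉ M ∧ p = ∏ i ∈ F, X i}

/-- The `m`-th symbolic power of a squarefree monomial ideal: the intersection of the `m`-th powers of
its minimal primes. -/
noncomputable def symbPow {K : Type*} [Field K] {n : ℕ} (I : Ideal (MvPolynomial (Fin n) K))
    (m : ℕ) : Ideal (MvPolynomial (Fin n) K) :=
  ⨅ p ∈ I.minimalPrimes, p ^ m

/-- the prime ideal of the variables outside `F` -/
noncomputable def prF (K : Type*) [Field K] {n : ℕ} (F : Finset (Fin n)) :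
    Ideal (MvPolynomial (Fin n) K) :=
  Ideal.span (X '' {i | i ∉ F})

theorem X_mem_prF {F : Finset (Fin n)} {i : Fin n} :
    (X i : MvPolynomial (Fin n) K) ∈ prF K F ↔ i ∉ F := by
  constructor
  · intro h
    unfold prF at h
    rw [mem_ideal_span_X_image] at h
    obtain ⟨j, hj, h1⟩ := h (Finsupp.single i 1) (by rw [support_X]; simp)
    rw [Finsupp.single_apply] at h1
    split_ifs at h1 with h2
    · rw [h2]; exact hj
    · exact absurd rfl h1
  · intro h
    exact Ideal.subset_span ⟨i, h, rfl⟩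

theorem prF_prime (F : Finset (Fin n)) : (prF K F).IsPrime := by
  classical
  let φ : MvPolynomial (Fin n) K →ₐ[K] MvPolynomial (Fin n) K :=
    aeval fun i => if i ∈ F then X i else 0
  have h1 : ∀ f, f - φ f ∈ prF K F := by
    intro f
    induction f using MvPolynomial.induction_on with
    | C a =>
      have : φ (C a) = C a := by
        change aeval _ (C a) = C a
        rw [aeval_C]; rfl
      rw [this, sub_self]
      exact Ideal.zero_mem _
    | add p q hp hq =>
      rw [map_add]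
      have : p + q - (φ p + φ q) = (p - φ p) + (q - φ q) := by ring
      rw [this]
      exact Ideal.add_mem _ hp hq
    | mul_X p i hp =>
      rw [map_mul]
      have h2 : φ (X i) = if i ∈ F then X i else 0 := aeval_X _ _
      rw [h2]
      split_ifs with hi
      · rw [← sub_mul]
        exact Ideal.mul_mem_right _ _ hp
      · rw [mul_zero, sub_zero]
        exact Ideal.mul_mem_left _ _ (X_mem_prF.2 hi)
  have h2 : prF K F = RingHom.ker φ.toRingHom := by
    apply le_antisymm
    · unfold prF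
      rw [Ideal.span_le]
      rintro _ ⟨i, hi, rfl⟩
      change φ (X i) = 0
      have h2 : φ (X i) = if i ∈ F then X i else 0 := aeval_X _ _
      rw [h2, if_neg hi]
    · intro f hf
      have h3 : φ f = 0 := hf
      have := h1 f
      rwa [h3, sub_zero] at this
  rw [h2]
  exact RingHom.ker_isPrime _

theorem sr_le_prF {M : Finset (Finset (Fin n))} (hM : IsMatroid M) {F : Finset (Fin n)}
    (hF : F ∈ M) : srIdeal K M ≤ prF K F := by
  unfold srIdeal
  rw [Ideal.span_le]
  rintro _ ⟨G, hG, rfl⟩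
  obtain ⟨i, hi, hiF⟩ : ∃ i ∈ G, i ∉ F := by
    by_contra h
    push Not at h
    exact hG (hM.2.1 F hF G fun x hx => h x hx)
  exact Ideal.mem_of_dvd _ (Finset.dvd_prod_of_mem _ hi) (X_mem_prF.2 hiF)

theorem prF_le_prime {M : Finset (Finset (Fin n))} (hM : IsMatroid M)
    {p : Ideal (MvPolynomial (Fin n) K)} (hp : p.IsPrime) (h : srIdeal K M ≤ p) :
    ∃ F, Bas M F ∧ prF K F ≤ p := by
  classical
  have h1 : (Finset.univ.filter fun i => (X i : MvPolynomial (Fin n) K) ∉ p) ∈ M := by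
    by_contra h2
    have h3 := h (Ideal.subset_span ⟨_, h2, rfl⟩)
    rw [hp.prod_mem_iff] at h3
    obtain ⟨i, hi, h4⟩ := h3
    exact (Finset.mem_filter.1 hi).2 h4
  obtain ⟨B, hB⟩ := exists_bas hM
  obtain ⟨F, hF, h2, -⟩ := extend_bas hM h1 hB
  refine ⟨F, hF, ?_⟩
  unfold prF
  rw [Ideal.span_le]
  rintro _ ⟨i, hi, rfl⟩
  by_contra h3
  exact hi (h2 (Finset.mem_filter.2 ⟨Finset.mem_univ _, h3⟩))

theorem minimalPrimes_iff {M : Finset (Finset (Fin n))} (hM : IsMatroid M)
    (p : Ideal (MvPolynomial (Fin n) K)) :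
    p ∈ (srIdeal K M).minimalPrimes ↔ ∃ F, Bas M F ∧ p = prF K F := by
  constructor
  · rintro ⟨⟨h1, h2⟩, h3⟩
    obtain ⟨F, hF, h4⟩ := prF_le_prime hM h1 h2
    exact ⟨F, hF, le_antisymm (h3 ⟨prF_prime F, sr_le_prF hM hF.1⟩ h4) h4⟩
  · rintro ⟨F, hF, rfl⟩
    refine ⟨⟨prF_prime F, sr_le_prF hM hF.1⟩, ?_⟩
    rintro q ⟨hq1, hq2⟩ hq3
    obtain ⟨G, hG, h1⟩ := prF_le_prime hM hq1 hq2
    have h2 : F ⊆ G := by
      intro x hx
      by_contra h3
      exact X_mem_prF.1 (hq3 (h1 (X_mem_prF.2 h3))) hx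
    have h3 : F = G := Finset.eq_of_subset_of_card_le h2 (by rw [hF.2, hG.2])
    rw [h3]
    exact h1

theorem mem_prF_sq (F : Finset (Fin n)) (f : MvPolynomial (Fin n) K) :
    f ∈ prF K F ^ 2 ↔ ∀ c ∈ f.support, 2 ≤ ∑ i ∈ Fᶜ, c i := by
  classical
  have h1 : prF K F = monIdeal K {s | ∃ i, i ∉ F ∧ s = Finsupp.single i 1} := by
    unfold prF monIdeal
    congr 1
    ext p
    constructor
    · rintro ⟨i, hi, rfl⟩
      exact ⟨_, ⟨i, hi, rfl⟩, rfl⟩
    · rintro ⟨_, ⟨i, hi, rfl⟩, rfl⟩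
      exact ⟨i, hi, rfl⟩
  rw [h1, pow_two, monIdeal_mul, mem_monIdeal]
  refine forall₂_congr fun c _ => ?_
  constructor
  · rintro ⟨_, ⟨_, ⟨i, hi, rfl⟩, _, ⟨j, hj, rfl⟩, rfl⟩, hle⟩
    have h2 : ∑ y ∈ Fᶜ, (Finsupp.single i 1 + Finsupp.single j 1 : Fin n →₀ ℕ) y = 2 := by
      simp only [Finsupp.add_apply, Finset.sum_add_distrib]
      rw [Finset.sum_eq_single i, Finset.sum_eq_single j, Finsupp.single_eq_same,
        Finsupp.single_eq_same]
      · intro y _ hy; exact Finsupp.single_eq_of_ne hy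
      · intro h; exact absurd (Finset.mem_compl.2 hj) h
      · intro y _ hy; exact Finsupp.single_eq_of_ne hy
      · intro h; exact absurd (Finset.mem_compl.2 hi) h
    rw [← h2]
    exact Finset.sum_le_sum fun y _ => hle y
  · intro h
    obtain ⟨i, hi, h2⟩ : ∃ i ∈ Fᶜ, c i ≠ 0 := by
      by_contra h2
      push Not at h2
      rw [Finset.sum_eq_zero h2] at h
      omega
    by_cases h3 : 2 ≤ c i
    · refine ⟨_, ⟨_, ⟨i, Finset.mem_compl.1 hi, rfl⟩, _, ⟨i, Finset.mem_compl.1 hi, rfl⟩, rfl⟩,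
        fun y => ?_⟩
      rw [Finsupp.add_apply, Finsupp.single_apply]
      split_ifs with h4
      · rw [← h4]; omega
      · omega
    · rw [← Finset.add_sum_erase _ _ hi] at h
      obtain ⟨j, hj, h4⟩ : ∃ j ∈ Fᶜ.erase i, c j ≠ 0 := by
        by_contra h4
        push Not at h4
        rw [Finset.sum_eq_zero h4] at h
        omega
      rw [Finset.mem_erase] at hj
      refine ⟨_, ⟨_, ⟨i, Finset.mem_compl.1 hi, rfl⟩, _, ⟨j, Finset.mem_compl.1 hj.2, rfl⟩, rfl⟩,
        fun y => ?_⟩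
      rw [Finsupp.add_apply, Finsupp.single_apply, Finsupp.single_apply]
      split_ifs with h5 h6
      · exact absurd (h6.trans h5.symm) hj.1
      · rw [← h5]; omega
      · rename_i h6
        rw [← h6]; omega
      · omega

theorem mem_symbPow {M : Finset (Finset (Fin n))} (hM : IsMatroid M)
    (f : MvPolynomial (Fin n) K) :
    f ∈ symbPow (srIdeal K M) 2 ↔ ∀ c ∈ f.support, PM M ⇑c := by
  unfold symbPow
  rw [Ideal.mem_iInf]
  constructor
  · intro h c hc F hF
    have h1 := h (prF K F)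
    rw [Ideal.mem_iInf] at h1
    exact (mem_prF_sq F f).1 (h1 ((minimalPrimes_iff hM _).2 ⟨F, hF, rfl⟩)) c hc
  · intro h p
    rw [Ideal.mem_iInf]
    intro hp
    obtain ⟨F, hF, rfl⟩ := (minimalPrimes_iff hM _).1 hp
    rw [mem_prF_sq]
    intro c hc
    exact h c hc F hF

theorem top_betti {M : Finset (Finset (Fin n))} (hM : IsMatroid M) (hn : rank M < n)
    (b : Fin n →₀ ℕ) (hb : gradedBetti (symbPow (srIdeal K M) 2) (n - rank M - 1) b ≠ 0) :
    ∃ C, IsCircuit M C ∧ b = ind (act M) + ind C := by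
  by_contra h
  apply hb
  rw [gradedBetti_eq (fun f => mem_symbPow hM f)]
  exact vanish hM (by omega) b h

end Pool.Agent.Q123.ML
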