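import Pool.Agent.Q123.ML.Level
import Pool.Agent.Q123.SD.Basic

set_option autoImplicit false

/-!
Vanishing of the top Betti numbers of the second symbolic power.
-/

namespace Pool.Agent.Q123.ML

open Finset MvPolynomial Pool.Agent.H677R3.EdgeReg Pool.Agent.Q123.KB

variable {n : ℕ}

/-- the exponents of the monomials of the second symbolic power -/
def PM (M : Finset (Finset (Fin n))) (u : Fin n → ℕ) : Prop :=
  ∀ F, Bas M F → 2 ≤ ∑ i ∈ Fᶜ, u i

/-- the elements which are missing in some facet, that is, the variables which occur in the ideal -/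
noncomputable def act (M : Finset (Finset (Fin n))) : Finset (Fin n) :=
  open Classical in univ.filter fun z => ∃ F, Bas M F ∧ z ∉ F

theorem mem_act {M : Finset (Finset (Fin n))} {z : Fin n} :
    z ∈ act M ↔ ∃ F, Bas M F ∧ z ∉ F := by
  classical
  simp [act]

theorem PM_mono (M : Finset (Finset (Fin n))) :
    ∀ u w : Fin n → ℕ, (∀ v, u v ≤ w v) → PM M u → PM M w := by
  intro u w h hu F hF
  exact (hu F hF).trans (Finset.sum_le_sum fun i _ => h i)

theorem vanish {K : Type*} [Field K] {M : Finset (Finset (Fin n))} (hM : IsMatroid M) {i : ℕ}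
    (hn : n = rank M + i + 1) (b : Fin n →₀ ℕ)
    (hb : ¬ ∃ C, IsCircuit M C ∧ b = ind (act M) + ind C) :
    combBetti K (fam (PM M) b) i = 0 := by
  classical
  refine combBetti_eq_zero fun a ha => ?_
  -- a variable outside the ideal
  by_cases h1 : ∃ x, 1 ≤ b x ∧ ∀ F, Bas M F → x ∈ F
  · obtain ⟨x, hx, hxF⟩ := h1
    refine cone_bd ha x fun T hT hxT => ?_
    obtain ⟨h2, -⟩ := ha.1 T hT
    rw [mem_fam] at h2 ⊢
    obtain ⟨h3, h4⟩ := h2
    refine ⟨fun y => ?_, fun F hF => ?_⟩
    · rw [ind_insert hxT, Finsupp.add_apply, Finsupp.single_apply]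
      have h5 := h3 y
      split_ifs with h6
      · rw [← h6, ind_apply, if_neg hxT]; omega
      · omega
    · refine (h4 F hF).trans (Finset.sum_le_sum fun y hy => ?_)
      have : x ≠ y := fun h => (Finset.mem_compl.1 hy) (h ▸ hxF F hF)
      rw [ind_insert hxT, Finsupp.tsub_apply, Finsupp.tsub_apply, Finsupp.add_apply,
        Finsupp.single_apply, if_neg this, add_zero]
  push Not at h1
  by_cases h2 : ∃ x, 3 ≤ b x
  · obtain ⟨x, hx⟩ := h2
    refine cone_bd ha x fun T hT hxT => ?_
    obtain ⟨h2, -⟩ := ha.1 T hT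
    rw [mem_fam] at h2 ⊢
    obtain ⟨h3, h4⟩ := h2
    refine ⟨fun y => ?_, fun F hF => ?_⟩
    · rw [ind_insert hxT, Finsupp.add_apply, Finsupp.single_apply]
      have h5 := h3 y
      split_ifs with h6
      · rw [← h6, ind_apply, if_neg hxT]; omega
      · omega
    · by_cases hxF : x ∈ F
      · refine (h4 F hF).trans (Finset.sum_le_sum fun y hy => ?_)
        have : x ≠ y := fun h => (Finset.mem_compl.1 hy) (h ▸ hxF)
        rw [ind_insert hxT, Finsupp.tsub_apply, Finsupp.tsub_apply, Finsupp.add_apply,
          Finsupp.single_apply, if_neg this, add_zero]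
      · refine le_trans ?_ (Finset.single_le_sum (f := fun y => (b - ind (insert x T)) y)
          (fun _ _ => Nat.zero_le _) (Finset.mem_compl.2 hxF))
        change 2 ≤ (b - ind (insert x T)) x
        rw [Finsupp.tsub_apply, ind_apply, if_pos (Finset.mem_insert_self _ _)]
        omega
  push Not at h2
  by_cases hne : b.support.Nonempty
  swap
  · rw [Finset.not_nonempty_iff_eq_empty, Finsupp.support_eq_empty] at hne
    have : a = 0 := by
      ext1 T
      by_contra hT
      obtain ⟨h3, -⟩ := ha.1 T hT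
      rw [mem_fam] at h3
      obtain ⟨F, hF⟩ := exists_bas hM
      have h4 := h3.2 F hF
      rw [hne] at h4
      simp at h4
    rw [this]
    exact Submodule.zero_mem _
  let S : Finset (Fin n) := univ.filter fun x => b x = 2
  have hS : ∀ x, x ∈ S ↔ b x = 2 := fun x => by simp [S]
  have hSW : S ⊆ b.support := fun x hx => Finsupp.mem_support_iff.2 (by rw [(hS x).1 hx]; omega)
  have hbx : ∀ x, b x = (if x ∈ b.support then 1 else 0) + if x ∈ S then 1 else 0 := by
    intro x
    have h3 := h2 x
    by_cases h4 : x ∈ S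
    · rw [if_pos h4, if_pos (hSW h4), (hS x).1 h4]
    · rw [if_neg h4]
      have h5 : b x ≠ 2 := fun h => h4 ((hS x).2 h)
      split_ifs with h6
      · have := Finsupp.mem_support_iff.1 h6; omega
      · exact Finsupp.notMem_support_iff.1 h6
  have hex : ¬ (IsCircuit M S ∧ ∀ z, (∃ F, Bas M F ∧ z ∉ F) → z ∈ b.support) := by
    rintro ⟨h3, h4⟩
    apply hb
    refine ⟨S, h3, ?_⟩
    ext x
    rw [Finsupp.add_apply, ind_apply, ind_apply, hbx x]
    congr 1
    have : x ∈ act M ↔ x ∈ b.support := by
      rw [mem_act]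
      refine ⟨h4 x, fun h5 => ?_⟩
      exact h1 x (Nat.one_le_iff_ne_zero.2 (Finsupp.mem_support_iff.1 h5))
    simp only [this]
  have hrel := rel_main (k := K) hM hSW hn hne hex
  have hsum : ∀ T F : Finset (Fin n), T ⊆ b.support → ∑ y ∈ Fᶜ, (b - ind T) y =
      ((b.support \ T) \ F).card + (S \ F).card := by
    intro T F hT
    have h3 : ∀ y, (b - ind T) y = (if y ∈ b.support \ T then 1 else 0) +
        if y ∈ S then 1 else 0 := by
      intro y
      rw [Finsupp.tsub_apply, ind_apply, hbx y]
      by_cases h4 : y ∈ T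
      · have h5 := hT h4
        rw [if_pos h5, if_pos h4, if_neg (fun h => (Finset.mem_sdiff.1 h).2 h4)]
        omega
      · by_cases h5 : y ∈ b.support
        · rw [if_pos h5, if_neg h4, if_pos (Finset.mem_sdiff.2 ⟨h5, h4⟩)]
          omega
        · rw [if_neg h5, if_neg h4, if_neg (fun h => h5 (Finset.mem_sdiff.1 h).1)]
          omega
    rw [Finset.sum_congr rfl fun y _ => h3 y, Finset.sum_add_distrib, Finset.sum_boole,
      Finset.sum_boole]
    have h6 : ∀ A : Finset (Fin n), (Fᶜ.filter fun y => y ∈ A) = A \ F := by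
      intro A
      ext y
      simp only [Finset.mem_filter, Finset.mem_compl, Finset.mem_sdiff]
      tauto
    rw [h6, h6]
    rfl
  have hle : ∀ T : Finset (Fin n), T ⊆ b.support → ind T ≤ b := by
    intro T hT y
    rw [ind_apply]
    split_ifs with h3
    · exact Nat.one_le_iff_ne_zero.2 (Finsupp.mem_support_iff.1 (hT h3))
    · exact Nat.zero_le _
  have heq : (fun T => T ⊆ b.support ∧ UU M b.support S (b.support \ T)) =
      (fun T => T ⊆ b.support ∧ ¬ T ∈ fam (PM M) b) := by
    funext T
    apply propext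
    refine and_congr_right fun hT => ?_
    rw [mem_fam]
    constructor
    · rintro ⟨-, F, hF, h3⟩ ⟨-, h4⟩
      have := h4 F hF
      rw [hsum T F hT] at this
      omega
    · intro h3
      refine ⟨Finset.sdiff_subset, ?_⟩
      by_contra h4
      push Not at h4
      refine h3 ⟨hle T hT, fun F hF => ?_⟩
      rw [hsum T F hT]
      exact h4 F hF
  rw [heq] at hrel
  obtain ⟨g, hg1, hg2⟩ := acyc_of_rel b.support hne (fun T => T ∈ fam (PM M) b)
    (fun T hT x hx => by
      rw [mem_fam] at hT
      have := hT.1 x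
      rw [ind_apply, if_pos hx] at this
      exact Finsupp.mem_support_iff.2 (by omega))
    (fun T j _ h => fam_down _ (PM_mono M) b T j h) i hrel a (fun T hT => ha.1 T hT)
    (fun T => congrFun ha.2 T)
  exact ⟨g, hg1, funext hg2⟩

end Pool.Agent.Q123.ML
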